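import Pool.Agent.H33.HH.TC

/-!
# GA2: the range of the complementary divisors
-/

set_option autoImplicit false

open NumberField Complex Filter Topology MeasureTheory
open scoped ContDiff nonZeroDivisors

namespace Pool.Agent.H36.HH

open Pool.Agent.H33.HH Pool.Agent.H28.RC Pool.Agent.H37.CV

theorem pf_GA2 : T_GA2 := by
  intro W G H hW hG hH
  obtain ⟨δ, hδ, hlow⟩ := hW.low
  refine ⟨6 / δ, by positivity, ?_⟩
  intro g x t v hx ht hv hne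
  have hG0 : G (‖g‖ ^ 2 * t) ≠ 0 := fun h => hne (by rw [h, mul_zero, zero_mul])
  have hw0 : w1 W (‖g - 1‖ ^ 2 * x / v) ≠ 0 := fun h => hne (by rw [h, mul_zero])
  have h1 : ‖g‖ ^ 2 * t < 3 := by
    by_contra h
    exact hG0 (hG.high _ (not_lt.1 h))
  have h2 : δ < ‖g - 1‖ ^ 2 * x / v := by
    by_contra h
    refine hw0 ?_
    unfold w1
    rw [hlow _ (not_lt.1 h), mul_zero]
  have h3 : ‖g - 1‖ ≤ ‖g‖ + 1 := by
    have := norm_sub_le g 1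
    rwa [norm_one] at this
  have h4 : ‖g - 1‖ ^ 2 ≤ 2 * ‖g‖ ^ 2 + 2 := by
    have h5 : ‖g - 1‖ ^ 2 ≤ (‖g‖ + 1) ^ 2 := pow_le_pow_left₀ (norm_nonneg _) h3 2
    have h6 : 0 ≤ (‖g‖ - 1) ^ 2 := sq_nonneg _
    have e1 : (‖g‖ + 1) ^ 2 + (‖g‖ - 1) ^ 2 = 2 * ‖g‖ ^ 2 + 2 := by ring
    linarith
  have h5 : ‖g‖ ^ 2 ≤ 3 / t := by
    rw [le_div_iff₀ ht]
    exact h1.le
  rw [lt_div_iff₀ hv] at h2
  have h6 : ‖g - 1‖ ^ 2 * x ≤ (2 * (3 / t) + 2) * x :=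
    mul_le_mul_of_nonneg_right (by linarith) hx.le
  have h7 : δ * v ≤ (2 * (3 / t) + 2) * x := h2.le.trans h6
  have h8 : v ≤ (2 * (3 / t) + 2) * x / δ := by
    rw [le_div_iff₀ hδ]
    linarith
  refine h8.trans ?_
  have e : 6 / δ * (x / t + x) - (2 * (3 / t) + 2) * x / δ = 4 * x / δ := by
    field_simp
    ring
  have h9 : 0 ≤ 4 * x / δ := by positivity
  linarith

end Pool.Agent.H36.HH
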