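import Pool.Agent.H33.HH.TC

/-!
# SLG: the weight is a function with a transition at `1`
-/

set_option autoImplicit false

open NumberField Complex Filter Topology MeasureTheory
open scoped ContDiff nonZeroDivisors

namespace Pool.Agent.H36.HH

open Pool.Agent.H33.HH Pool.Agent.H28.RC Pool.Agent.H37.CV

/-- the derivative of a function which is constant to the left of `b` -/
theorem deriv_left (f : ℝ → ℝ) (hf : Differentiable ℝ f) (b c : ℝ) (h : ∀ u, u ≤ b → f u = c)
    (t : ℝ) (ht : t ≤ b) : deriv f t = 0 := by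
  have h1 : HasDerivWithinAt f (deriv f t) (Set.Iic t) t := (hf t).hasDerivAt.hasDerivWithinAt
  have h2 : HasDerivWithinAt f 0 (Set.Iic t) t :=
    (hasDerivWithinAt_const t (Set.Iic t) c).congr (fun u hu => h u (le_trans hu ht)) (h t ht)
  exact (uniqueDiffWithinAt_Iic t).eq_deriv _ h1 h2

/-- the derivative of a function which is constant to the right of `b` -/
theorem deriv_right (f : ℝ → ℝ) (hf : Differentiable ℝ f) (b c : ℝ) (h : ∀ u, b ≤ u → f u = c)
    (t : ℝ) (ht : b ≤ t) : deriv f t = 0 := by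
  have h1 : HasDerivWithinAt f (deriv f t) (Set.Ici t) t := (hf t).hasDerivAt.hasDerivWithinAt
  have h2 : HasDerivWithinAt f 0 (Set.Ici t) t :=
    (hasDerivWithinAt_const t (Set.Ici t) c).congr (fun u hu => h u (le_trans ht hu)) (h t ht)
  exact (uniqueDiffWithinAt_Ici t).eq_deriv _ h1 h2

theorem pf_SLG : T_SLG := by
  intro G hG
  obtain ⟨hd, hs⟩ := contDiff_infty_iff_deriv.1 hG.smooth
  have hc : Continuous (deriv G) := hs.continuous
  obtain ⟨C₁, hC₁⟩ := (isCompact_Icc (a := (1 : ℝ)) (b := 3)).exists_bound_of_continuousOn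
    hG.smooth.continuous.continuousOn
  obtain ⟨C₂, hC₂⟩ := (isCompact_Icc (a := (1 : ℝ)) (b := 3)).exists_bound_of_continuousOn
    (f := fun t => t * deriv G t) (continuous_id.mul hc).continuousOn
  have hC1 : 0 ≤ C₁ := (norm_nonneg _).trans (hC₁ 1 ⟨le_refl _, by norm_num⟩)
  have hC2 : 0 ≤ C₂ := (norm_nonneg _).trans (hC₂ 1 ⟨le_refl _, by norm_num⟩)
  have key : ∀ t : ℝ, 1 ≤ t → t ≤ 3 → (1 / 2 : ℝ) ≤ t ^ (-(1 / 2) : ℝ) := by
    intro t h1 h3
    have h2 : (4 : ℝ) ^ (-(1 / 2) : ℝ) ≤ t ^ (-(1 / 2) : ℝ) :=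
      Real.rpow_le_rpow_of_nonpos (by linarith) (by linarith) (by norm_num)
    have h4 : (4 : ℝ) ^ (-(1 / 2) : ℝ) = 1 / 2 := by
      rw [Real.rpow_neg (by norm_num), ← Real.sqrt_eq_rpow,
        show (4 : ℝ) = 2 ^ 2 by norm_num, Real.sqrt_sq (by norm_num)]
      norm_num
    rwa [h4] at h2
  refine ⟨2 * (C₁ + C₂), by positivity, ?_, hc.continuousOn, ?_, ?_⟩
  · intro t _
    exact (hd t).hasDerivAt
  · intro t ht0 ht1
    rw [hG.low t ht1, deriv_left G hd 1 1 hG.low t ht1, sub_self, abs_zero]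
    constructor <;> positivity
  · intro t ht1
    have ht0 : 0 < t := by linarith
    rcases le_or_gt t 3 with h3 | h3
    · have hk := key t ht1 h3
      have e1 := hC₁ t ⟨ht1, h3⟩
      have e2 := hC₂ t ⟨ht1, h3⟩
      rw [Real.norm_eq_abs] at e1 e2
      rw [div_one]
      constructor
      · have h5 : (2 * (C₁ + C₂)) * (1 / 2) ≤ 2 * (C₁ + C₂) * t ^ (-(1 / 2) : ℝ) :=
          mul_le_mul_of_nonneg_left hk (by positivity)
        linarith
      · rw [abs_mul, abs_of_pos ht0] at e2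
        have h5 : (2 * (C₁ + C₂)) * (1 / 2) ≤ 2 * (C₁ + C₂) * t ^ (-(1 / 2) : ℝ) :=
          mul_le_mul_of_nonneg_left hk (by positivity)
        have h6 : t * |deriv G t| ≤ 2 * (C₁ + C₂) * t ^ (-(1 / 2) : ℝ) := by linarith
        have e3 : 2 * (C₁ + C₂) / t * t ^ (-(1 / 2) : ℝ) =
            2 * (C₁ + C₂) * t ^ (-(1 / 2) : ℝ) / t := by ring
        rw [e3, le_div_iff₀ ht0]
        linarith
    · rw [hG.high t h3.le, deriv_right G hd 3 0 hG.high t h3.le, abs_zero]
      constructor <;> positivity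

end Pool.Agent.H36.HH
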