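import Pool.Agent.H36.HH.SLG

/-!
# THB: the difference of the sum over the complementary divisors and its limit
-/

set_option autoImplicit false

open NumberField Complex Filter Topology MeasureTheory
open scoped ContDiff nonZeroDivisors

namespace Pool.Agent.H36.HH

open Pool.Agent.H33.HH Pool.Agent.H28.RC Pool.Agent.H37.CV

theorem nm_pos' {K : Type} [Field K] [NumberField K] (l : NI K) : 0 < nm l.1 := by
  unfold nm
  have : Ideal.absNorm l.1 ≠ 0 := fun h => l.2 (Ideal.absNorm_eq_zero_iff.1 h)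
  exact_mod_cast Nat.pos_of_ne_zero this

/-- the integral of the derivative of a function which vanishes outside an interval -/
theorem integral_deriv_zero (w : ℝ → ℝ) (δ : ℝ) (hw : ContDiff ℝ ∞ w) (hδ : 0 < δ)
    (h0 : ∀ u, u ≤ δ → w u = 0) (h1 : ∀ u, 1 ≤ u → w u = 0) :
    ∫ u in Set.Ioi (0 : ℝ), deriv w u = 0 := by
  obtain ⟨hd, hs⟩ := contDiff_infty_iff_deriv.1 hw
  have hint : Integrable (deriv w) := by
    refine hs.continuous.integrable_of_hasCompactSupport ?_
    refine HasCompactSupport.intro (isCompact_Icc (a := δ) (b := 1)) fun u hu => ?_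
    rw [Set.mem_Icc, not_and_or, not_le, not_le] at hu
    rcases hu with hu | hu
    · exact deriv_left w hd δ 0 h0 u hu.le
    · exact deriv_right w hd 1 0 h1 u hu.le
  have ht : Tendsto w atTop (𝓝 0) :=
    tendsto_const_nhds.congr' ((eventually_ge_atTop 1).mono fun u hu => (h1 u hu).symm)
  rw [integral_Ioi_of_hasDerivAt_of_tendsto (f := w) (m := 0) hd.continuous.continuousWithinAt
    (fun u _ => (hd u).hasDerivAt) hint.integrableOn ht, h0 0 hδ.le, sub_zero]

theorem pf_THB (h1 : T_THS) (h2 : T_THD) : T_THB := by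
  intro K _ _ _ W hW
  obtain ⟨δ, hδ, hlow⟩ := hW.low
  have hw : ContDiff ℝ ∞ (w1 W) := contDiff_id.mul hW.smooth
  have hw0 : ∀ u, u ≤ δ → w1 W u = 0 := fun u hu => by unfold w1; rw [hlow u hu, mul_zero]
  have hw1 : ∀ u, 1 ≤ u → w1 W u = 0 := fun u hu => by unfold w1; rw [hW.high u hu, mul_zero]
  obtain ⟨hd, hs⟩ := contDiff_infty_iff_deriv.1 hw
  obtain ⟨hT1, hT2⟩ := h2 K (w1 W) δ hw hδ hw0 hw1
  have eTh : Th K W = fun x => ∑' l : NI K, (nm l.1)⁻¹ * w1 W (x / nm l.1) := rfl
  have eR : Rr K W = fun x => Th K W x - Thi K W := rfl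
  have hTs : ContDiff ℝ ∞ (Th K W) := by rw [eTh]; exact hT1
  have hlim : ∫ u in Set.Ioi (0 : ℝ), w1 W u / u = W0 W := by
    unfold W0
    refine setIntegral_congr_fun measurableSet_Ioi fun u hu => ?_
    have hu0 : u ≠ 0 := ne_of_gt hu
    show w1 W u / u = W u
    unfold w1
    rw [mul_comm, mul_div_assoc, div_self hu0, mul_one]
  refine ⟨?_, fun x hx => ?_, fun A => ?_⟩
  · rw [eR]
    exact (hTs.sub contDiff_const).of_le (by exact_mod_cast le_top)
  · have : Th K W x = 0 := by
      unfold Th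
      rw [← tsum_zero (α := ℝ) (β := NI K)]
      refine tsum_congr fun l => ?_
      rw [hw0 _ ((div_nonpos_of_nonpos_of_nonneg hx (nm_pos' l).le).trans hδ.le), mul_zero]
    unfold Rr
    rw [this, zero_sub]
  · have hv : ContDiff ℝ ∞ (fun u => u * deriv (w1 W) u) := contDiff_id.mul hs
    have hv0 : ∀ u, u ≤ δ → (fun u => u * deriv (w1 W) u) u = 0 := fun u hu => by
      show u * deriv (w1 W) u = 0
      rw [deriv_left (w1 W) hd δ 0 hw0 u hu, mul_zero]
    have hv1 : ∀ u, 1 ≤ u → (fun u => u * deriv (w1 W) u) u = 0 := fun u hu => by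
      show u * deriv (w1 W) u = 0
      rw [deriv_right (w1 W) hd 1 0 hw1 u hu, mul_zero]
    obtain ⟨C₁, hC₁, hb₁⟩ := h1 K (w1 W) δ hw hδ hw0 hw1 A
    obtain ⟨C₂, hC₂, hb₂⟩ := h1 K (fun u => u * deriv (w1 W) u) δ hv hδ hv0 hv1 A
    have hz : ∫ u in Set.Ioi (0 : ℝ), (fun u => u * deriv (w1 W) u) u / u = 0 := by
      refine Eq.trans ?_ (integral_deriv_zero (w1 W) δ hw hδ hw0 hw1)
      refine setIntegral_congr_fun measurableSet_Ioi fun u hu => ?_
      have hu0 : u ≠ 0 := ne_of_gt hu
      show u * deriv (w1 W) u / u = deriv (w1 W) u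
      rw [mul_comm, mul_div_assoc, div_self hu0, mul_one]
    refine ⟨C₁ + C₂, by positivity, fun x hx => ?_⟩
    have hp : 0 < (1 + x) ^ A := by positivity
    constructor
    · have := hb₁ x hx
      rw [hlim] at this
      have e : Rr K W x = (∑' l : NI K, (nm l.1)⁻¹ * w1 W (x / nm l.1)) - rh K * W0 W := rfl
      rw [e]
      refine this.trans ?_
      exact div_le_div_of_nonneg_right (by linarith) hp.le
    · have := hb₂ x hx
      rw [hz, mul_zero, sub_zero] at this
      have e1 : deriv (Rr K W) x = deriv (Th K W) x := by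
        rw [eR]
        exact deriv_sub_const _
      have e2 := hT2 x
      rw [← eTh] at e2
      rw [e1, e2]
      refine this.trans ?_
      exact div_le_div_of_nonneg_right (by linarith) hp.le

end Pool.Agent.H36.HH
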